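import Mathlib

set_option autoImplicit false

/-! For every infinite cardinal `a` the comparability graph of the tree of all injective transfinite
sequences in a set of cardinality `a` has chromatic number exactly `a⁺` and contains no subdivision
of the complete graph on `a⁺` vertices. -/

namespace Pool.Agent.Results.MP_e76a7e_co.InjectiveSequences

open Cardinal Order SimpleGraph

universe u

/-- the chromatic number as a cardinal: the least cardinality of a set of colours admitting a proper
colouring -/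
noncomputable def chi {V : Type u} (G : SimpleGraph V) : Cardinal.{u} :=
  sInf {c | ∃ C : Type u, #C = c ∧ Nonempty (G.Coloring C)}

/-- `G` contains a subdivision of the complete graph on `κ` vertices: a set `B` of `κ` branch
vertices and paths `P x y` joining them, such that no path has an inner vertex in `B` and the paths
of two different pairs have no inner vertex in common -/
def HasSubdivision {V : Type u} (G : SimpleGraph V) (κ : Cardinal.{u}) : Prop :=
  ∃ (B : Set V) (P : ∀ x y : B, G.Walk (x : V) (y : V)), #B = κ ∧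
    (∀ x y : B, (P x y).IsPath) ∧
    (∀ x y z : B, (z : V) ∈ (P x y).support → z = x ∨ z = y) ∧
    (∀ x y x' y' : B, x ≠ y → x' ≠ y' → s(x, y) ≠ s(x', y') →
      ∀ v ∈ (P x y).support, v ∈ (P x' y').support → v ∈ B)

section

variable (K : Type u)

/-- a well-ordered set of order type the initial ordinal of `(#K)⁺` -/
abbrev W : Type u := (succ #K).ord.ToType

lemma mk_W : #(W K) = succ #K := by
  rw [mk_toType, card_ord]

lemma mk_Iio (w : W K) : #(Set.Iio w) ≤ #K := by
  have h : #(Set.Iio w) < succ #K := by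
    have h1 := mk_Iio_lt w (by rw [mk_toType, card_ord]; exact (Ordinal.type_toType _).symm)
    rwa [mk_W] at h1
  exact lt_succ_iff.1 h

/-- the injective sequences in `K` of length smaller than `(#K)⁺` -/
structure Node : Type u where
  /-- the length -/
  len : W K
  /-- the sequence -/
  seq : Set.Iio len → K
  /-- it is injective -/
  inj : Function.Injective seq

variable {K}

/-- `y` is a proper end extension of `x` -/
def Lt (x y : Node K) : Prop :=
  ∃ h : x.len < y.len, ∀ v : Set.Iio x.len, x.seq v = y.seq ⟨v.1, lt_trans v.2 h⟩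

lemma Lt.irrefl (x : Node K) : ¬ Lt x x := fun ⟨h, _⟩ => lt_irrefl _ h

lemma Lt.eq_of_len {x x' y : Node K} (h : Lt x y) (h' : Lt x' y) (hl : x.len = x'.len) :
    x = x' := by
  obtain ⟨w, s, i⟩ := x
  obtain ⟨w', s', i'⟩ := x'
  simp only at hl
  subst hl
  have : s = s' := by
    funext v
    exact (h.2 v).trans (h'.2 v).symm
  subst this
  rfl

lemma seq_congr {x y : Node K} (h : x = y) (v : W K) (hx : v < x.len) (hy : v < y.len) :
    x.seq ⟨v, hx⟩ = y.seq ⟨v, hy⟩ := by
  subst h
  rfl

/-- the comparability graph -/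
def graph (K : Type u) : SimpleGraph (Node K) where
  Adj x y := Lt x y ∨ Lt y x
  symm := ⟨fun _ _ h => h.symm⟩
  loopless := ⟨fun x h => h.elim (Lt.irrefl x) (Lt.irrefl x)⟩

lemma mk_pred (y : Node K) : #{x | Lt x y} ≤ #K := by
  refine le_trans (mk_le_of_injective (f := fun x : {x | Lt x y} =>
    (⟨x.1.len, x.2.1⟩ : Set.Iio y.len)) ?_) (mk_Iio K y.len)
  intro x x' h
  exact Subtype.ext (x.2.eq_of_len x'.2 (congrArg Subtype.val h))

/-- a walk between incomparable nodes contains a common predecessor -/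
lemma exists_common {x y : Node K} (hxy : ¬ Lt x y) (hyx : ¬ Lt y x) (hne : x ≠ y)
    (p : (graph K).Walk x y) : ∃ z ∈ p.support, Lt z x ∧ Lt z y := by
  classical
  -- the two sequences differ somewhere
  have hD : ∃ d : W K, ∃ (h1 : d < x.len) (h2 : d < y.len),
      x.seq ⟨d, h1⟩ ≠ y.seq ⟨d, h2⟩ := by
    by_contra hcon
    push Not at hcon
    rcases lt_trichotomy x.len y.len with h | h | h
    · exact hxy ⟨h, fun v => hcon v.1 v.2 _⟩
    · apply hne
      obtain ⟨w, s, i⟩ := x
      obtain ⟨w', s', i'⟩ := y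
      simp only at h
      subst h
      have : s = s' := by
        funext v
        exact hcon v.1 v.2 v.2
      subst this
      rfl
    · exact hyx ⟨h, fun v => (hcon v.1 _ v.2).symm⟩
  obtain ⟨d, ⟨h1, h2, hd⟩, hmin⟩ := WellFounded.has_min (wellFounded_lt (α := W K))
    {d : W K | ∃ (h1 : d < x.len) (h2 : d < y.len), x.seq ⟨d, h1⟩ ≠ y.seq ⟨d, h2⟩} hD
  have hagree : ∀ v : W K, v < d → ∀ (h1 : v < x.len) (h2 : v < y.len),
      x.seq ⟨v, h1⟩ = y.seq ⟨v, h2⟩ := by
    intro v hv h1 h2
    by_contra hcon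
    exact hmin v ⟨h1, h2, hcon⟩ hv
  -- the cone of `x` above `d`
  let C : Set (Node K) := {z | ∃ h : d < z.len, ∀ v : W K, ∀ hv : v ≤ d,
    z.seq ⟨v, lt_of_le_of_lt hv h⟩ = x.seq ⟨v, lt_of_le_of_lt hv h1⟩}
  have hxC : x ∈ C := ⟨h1, fun v hv => rfl⟩
  have hyC : y ∉ C := fun ⟨h, hv⟩ => hd (hv d le_rfl).symm
  obtain ⟨e, he, hu, hu'⟩ := p.exists_boundary_dart C hxC hyC
  have hmem : e.snd ∈ p.support := p.dart_snd_mem_support_of_mem_darts he
  refine ⟨e.snd, hmem, ?_⟩
  have hadj : Lt e.fst e.snd ∨ Lt e.snd e.fst := e.adj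
  obtain ⟨hu1, hu2⟩ := hu
  rcases hadj with h | h
  · exfalso
    apply hu'
    obtain ⟨h3, h4⟩ := h
    refine ⟨hu1.trans h3, fun v hv => ?_⟩
    rw [← hu2 v hv]
    exact (h4 ⟨v, lt_of_le_of_lt hv hu1⟩).symm
  · obtain ⟨h3, h4⟩ := h
    have h5 : e.snd.len ≤ d := by
      by_contra hcon
      push Not at hcon
      apply hu'
      refine ⟨hcon, fun v hv => ?_⟩
      rw [← hu2 v hv]
      exact h4 ⟨v, lt_of_le_of_lt hv hcon⟩
    refine ⟨⟨lt_of_le_of_lt h5 h1, fun v => ?_⟩, ⟨lt_of_le_of_lt h5 h2, fun v => ?_⟩⟩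
    · have hvd : v.1 < d := lt_of_lt_of_le v.2 h5
      rw [h4 v]
      exact hu2 v.1 hvd.le
    · have hvd : v.1 < d := lt_of_lt_of_le v.2 h5
      rw [h4 v]
      exact (hu2 v.1 hvd.le).trans (hagree v.1 hvd _ _)

/-- a set of more than `#K` nodes contains two incomparable ones -/
lemma exists_incomparable [Infinite K] (B : Set (Node K)) (hB : #K < #B) :
    ∃ x ∈ B, ∃ y ∈ B, x ≠ y ∧ ¬ Lt x y ∧ ¬ Lt y x := by
  classical
  by_contra hcon
  push Not at hcon
  have hch : ∀ x ∈ B, ∀ y ∈ B, x.len < y.len → Lt x y := by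
    intro x hx y hy hlt
    by_contra hno
    have hne : x ≠ y := by
      rintro rfl
      exact lt_irrefl _ hlt
    obtain ⟨h, _⟩ := hcon x hx y hy hne hno
    exact lt_asymm h hlt
  have hinj : ∀ x ∈ B, ∀ y ∈ B, x.len = y.len → x = y := by
    intro x hx y hy hl
    by_contra hne
    have h1 : ¬ Lt x y := fun ⟨h, _⟩ => h.ne hl
    obtain ⟨h, _⟩ := hcon x hx y hy hne h1
    exact h.ne hl.symm
  -- the lengths are unbounded
  have hunb : ∀ v : W K, ∃ x ∈ B, v < x.len := by
    intro v
    by_contra hle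
    push Not at hle
    have h1 : #B ≤ #(Set.Iic v) := by
      refine mk_le_of_injective (f := fun x : B => (⟨x.1.len, hle x.1 x.2⟩ : Set.Iic v)) ?_
      intro x y h
      exact Subtype.ext (hinj x.1 x.2 y.1 y.2 (congrArg Subtype.val h))
    have h2 : #(Set.Iic v) ≤ #K := by
      rw [← Set.Iio_insert]
      refine (mk_insert_le).trans ?_
      refine (add_le_add_left (mk_Iio K v) 1).trans ?_
      rw [add_one_eq (aleph0_le_mk K)]
    exact absurd (hB.trans_le (h1.trans h2)) (lt_irrefl _)
  -- the union of the sequences in `B` is an injection of `W K` into `K`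
  choose X hXB hX using hunb
  have hinjg : Function.Injective (fun v : W K => (X v).seq ⟨v, hX v⟩) := by
    intro v w hvw
    simp only at hvw
    by_contra hne
    rcases lt_trichotomy (X v).len (X w).len with h | h | h
    · obtain ⟨h1, h2⟩ := hch _ (hXB v) _ (hXB w) h
      rw [h2 ⟨v, hX v⟩] at hvw
      exact hne (congrArg Subtype.val ((X w).inj hvw))
    · have h3 := hinj _ (hXB v) _ (hXB w) h
      have h4 : (X v).seq ⟨v, hX v⟩ = (X w).seq ⟨v, h3 ▸ hX v⟩ := seq_congr h3 v _ _
      rw [h4] at hvw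
      exact hne (congrArg Subtype.val ((X w).inj hvw))
    · obtain ⟨h1, h2⟩ := hch _ (hXB w) _ (hXB v) h
      rw [h2 ⟨w, hX w⟩] at hvw
      exact hne (congrArg Subtype.val ((X v).inj hvw))
  have h5 := mk_le_of_injective hinjg
  rw [mk_W] at h5
  exact absurd (lt_of_lt_of_le (lt_succ #K) h5) (lt_irrefl _)

/-- `graph K` contains no subdivision of the complete graph on `(#K)⁺` vertices -/
theorem not_hasSubdivision [Infinite K] : ¬ HasSubdivision (graph K) (succ #K) := by
  classical
  rintro ⟨B, P, hB, hP, hin, hdis⟩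
  have hlt : #K < #B := hB ▸ lt_succ #K
  obtain ⟨x, hx, y, hy, hne, hxy, hyx⟩ := exists_incomparable B hlt
  -- for every further branch vertex a common predecessor of `x` and `y`
  have hw : ∀ z : {z : B | z.1 ≠ x ∧ z.1 ≠ y}, ∃ w : Node K, (Lt w x ∧ Lt w y) ∧
      (w ∈ (P ⟨x, hx⟩ z.1).support ∨ w ∈ (P z.1 ⟨y, hy⟩).support) := by
    intro z
    obtain ⟨w, h1, h2⟩ := exists_common hxy hyx hne ((P ⟨x, hx⟩ z.1).append (P z.1 ⟨y, hy⟩))
    exact ⟨w, h2, by simpa using h1⟩
  choose f hf hf' using hw
  -- if the chosen vertex for `z` is a branch vertex, then it is `z`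
  have hz : ∀ z, f z ∈ B → f z = z.1.1 := by
    intro z hzB
    have hfx : f z ≠ x := fun h => Lt.irrefl x (h ▸ (hf z).1)
    have hfy : f z ≠ y := fun h => Lt.irrefl y (h ▸ (hf z).2)
    rcases hf' z with h | h
    · rcases hin ⟨x, hx⟩ z.1 ⟨f z, hzB⟩ h with h1 | h1
      · exact absurd (congrArg Subtype.val h1) hfx
      · exact congrArg Subtype.val h1
    · rcases hin z.1 ⟨y, hy⟩ ⟨f z, hzB⟩ h with h1 | h1
      · exact congrArg Subtype.val h1
      · exact absurd (congrArg Subtype.val h1) hfy
  have hinj : Function.Injective f := by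
    intro z z' hzz
    by_contra hzne
    have hzne' : z.1 ≠ z'.1 := fun h => hzne (Subtype.ext h)
    have hx1 : z.1 ≠ ⟨x, hx⟩ := fun h => z.2.1 (congrArg Subtype.val h)
    have hy1 : z.1 ≠ ⟨y, hy⟩ := fun h => z.2.2 (congrArg Subtype.val h)
    have hx2 : z'.1 ≠ ⟨x, hx⟩ := fun h => z'.2.1 (congrArg Subtype.val h)
    have hy2 : z'.1 ≠ ⟨y, hy⟩ := fun h => z'.2.2 (congrArg Subtype.val h)
    have hxy' : (⟨x, hx⟩ : B) ≠ ⟨y, hy⟩ := fun h => hne (congrArg Subtype.val h)
    -- the common vertex is a branch vertex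
    have key : f z ∈ B := by
      have h2 := hf' z'
      rw [← hzz] at h2
      rcases hf' z with h1 | h1 <;> rcases h2 with h2 | h2
      · refine hdis _ _ _ _ hx1.symm hx2.symm ?_ _ h1 h2
        intro h
        rcases Sym2.eq_iff.1 h with ⟨_, h⟩ | ⟨h, _⟩
        · exact hzne' h
        · exact hx2 h.symm
      · refine hdis _ _ _ _ hx1.symm hy2 ?_ _ h1 h2
        intro h
        rcases Sym2.eq_iff.1 h with ⟨h, _⟩ | ⟨h, _⟩
        · exact hx2 h.symm
        · exact hxy' h
      · refine hdis _ _ _ _ hy1 hx2.symm ?_ _ h1 h2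
        intro h
        rcases Sym2.eq_iff.1 h with ⟨h, _⟩ | ⟨h, _⟩
        · exact hx1 h
        · exact hzne' h
      · refine hdis _ _ _ _ hy1 hy2 ?_ _ h1 h2
        intro h
        rcases Sym2.eq_iff.1 h with ⟨h, _⟩ | ⟨h, _⟩
        · exact hzne' h
        · exact hy1 h
    have h1 := hz z key
    have h2 := hz z' (hzz ▸ key)
    exact hzne' (Subtype.ext (h1.symm.trans (hzz.trans h2)))
  -- hence there are at most `#K` branch vertices
  have h1 : #{z : B | z.1 ≠ x ∧ z.1 ≠ y} ≤ #K := by
    refine le_trans (mk_le_of_injective (f := fun z => (⟨f z, (hf z).1⟩ : {w | Lt w x})) ?_)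
      (mk_pred x)
    intro z z' h
    exact hinj (congrArg Subtype.val h)
  have h2 : #B ≤ #({z : B | z.1 ≠ x ∧ z.1 ≠ y} : Set B) + #({⟨x, hx⟩, ⟨y, hy⟩} : Set B) := by
    refine le_trans ?_ (mk_union_le _ _)
    rw [← mk_univ]
    refine mk_le_mk_of_subset ?_
    intro z _
    by_cases hzx : z.1 = x
    · right
      left
      exact Subtype.ext hzx
    · by_cases hzy : z.1 = y
      · right
        right
        exact Subtype.ext hzy
      · left
        exact ⟨hzx, hzy⟩
  have h3 : #({⟨x, hx⟩, ⟨y, hy⟩} : Set B) ≤ #K := by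
    refine le_of_lt (lt_of_lt_of_le ?_ (aleph0_le_mk K))
    exact (Set.toFinite _).lt_aleph0
  have h4 : #B ≤ #K := by
    refine h2.trans ((add_le_add h1 h3).trans ?_)
    rw [add_eq_self (aleph0_le_mk K)]
  exact absurd (lt_of_lt_of_le hlt h4) (lt_irrefl _)

/-- `graph K` has no proper colouring with at most `#K` colours -/
theorem no_coloring [Infinite K] {C : Type u} (hC : #C ≤ #K) (c : (graph K).Coloring C) :
    False := by
  classical
  obtain ⟨e⟩ := hC
  -- the sequence of length `(#K)⁺` whose value at `w` is the colour of its restriction to `w`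
  let step : ∀ w : W K, (∀ v, v < w → K) → K := fun w ih =>
    if h : Function.Injective (fun v : Set.Iio w => ih v.1 v.2) then
      e (c ⟨w, fun v => ih v.1 v.2, h⟩) else Classical.arbitrary K
  let F : W K → K := (wellFounded_lt (α := W K)).fix step
  have hF : ∀ w, F w = step w (fun v _ => F v) := fun w => WellFounded.fix_eq _ _ _
  have hF' : ∀ w, ∀ h : Function.Injective (fun v : Set.Iio w => F v.1),
      F w = e (c ⟨w, fun v => F v.1, h⟩) := by
    intro w h
    rw [hF w]
    exact dif_pos h
  have hne : ∀ w v, v < w → F v ≠ F w := by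
    intro w
    induction w using WellFoundedLT.induction with
    | ind w ih =>
      intro v hv
      have hinj : Function.Injective (fun v : Set.Iio w => F v.1) := by
        intro a b hab
        simp only at hab
        rcases lt_trichotomy a.1 b.1 with h | h | h
        · exact absurd hab (ih b.1 b.2 a.1 h)
        · exact Subtype.ext h
        · exact absurd hab.symm (ih a.1 a.2 b.1 h)
      have hinj' : Function.Injective (fun u : Set.Iio v => F u.1) := by
        intro a b hab
        simp only at hab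
        rcases lt_trichotomy a.1 b.1 with h | h | h
        · exact absurd hab (ih b.1 (lt_trans b.2 hv) a.1 h)
        · exact Subtype.ext h
        · exact absurd hab.symm (ih a.1 (lt_trans a.2 hv) b.1 h)
      rw [hF' w hinj, hF' v hinj']
      intro h
      have hadj : (graph K).Adj ⟨v, fun u => F u.1, hinj'⟩ ⟨w, fun u => F u.1, hinj⟩ :=
        Or.inl ⟨hv, fun _ => rfl⟩
      exact c.valid hadj (e.injective h)
  have hinjF : Function.Injective F := by
    intro a b hab
    rcases lt_trichotomy a b with h | h | h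
    · exact absurd hab (hne b a h)
    · exact h
    · exact absurd hab.symm (hne a b h)
  have h5 := mk_le_of_injective hinjF
  rw [mk_W] at h5
  exact absurd (lt_of_lt_of_le (lt_succ #K) h5) (lt_irrefl _)

/-- the length is a proper colouring -/
def lenColoring : (graph K).Coloring (W K) :=
  Coloring.mk Node.len (by
    intro x y h
    rcases h with ⟨h, _⟩ | ⟨h, _⟩
    · exact h.ne
    · exact h.ne')

theorem chi_graph [Infinite K] : chi (graph K) = succ #K := by
  apply le_antisymm
  · exact csInf_le' ⟨W K, mk_W K, ⟨lenColoring⟩⟩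
  · refine le_csInf ⟨_, W K, mk_W K, ⟨lenColoring⟩⟩ ?_
    rintro _ ⟨C, rfl, ⟨c⟩⟩
    rw [succ_le_iff]
    by_contra hcon
    exact no_coloring (not_lt.1 hcon) c

end

/-- For every infinite cardinal `a` some graph of chromatic number exactly `a⁺` contains no
subdivision of the complete graph on `a⁺` vertices. -/
theorem result (a : Cardinal.{u}) (ha : ℵ₀ ≤ a) :
    ∃ (V : Type u) (G : SimpleGraph V), chi G = succ a ∧ ¬ HasSubdivision G (succ a) := by
  induction a using Cardinal.inductionOn with
  | mk K =>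
    have : Infinite K := infinite_iff.2 ha
    exact ⟨Node K, graph K, chi_graph, not_hasSubdivision⟩

end Pool.Agent.Results.MP_e76a7e_co.InjectiveSequences
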